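import Pool.Agent.Q276.PL.Stm2
import Pool.Agent.H38R2.CG.LM
import Pool.Agent.H38R2.CG.LM2
import Pool.Agent.H38R2.CG.N3
import Pool.Agent.H38R2.CG.N3a
import Pool.Agent.H38R2.CG.N3b
import Pool.Agent.H38R2.CG.N2
import Pool.Agent.H38R2.CG.SPL
import Pool.Agent.H38R2.CG.N0
import Pool.Agent.H38R2.CG.N0d
import Pool.Agent.H38R2.CG.N0e
import Pool.Agent.H38R2.CG.KR
import Pool.Agent.H38R2.CG.PV

/-! Project PL (helper276), job LAV (helper252): the first moment of `L(1, chi_D)` over dyadic blocks. -/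

set_option autoImplicit false

namespace Pool.Agent.Q252.PL

open Finset Filter Pool.Agent.H38R2.CG Pool.Agent.Q276.PL
open scoped Classical

theorem lm : P_LM := T_LM (T_N3a T_KR T_PV) (T_LM2 T_PV)

theorem lnn : StmtLNN := by
  intro D hD
  have hN3a : P_N3a := T_N3a T_KR T_PV
  have hN3 : P_N3 := T_N3 (T_N2 (T_SPL T_N0)) (T_N3b T_KR T_PV hN3a)
  obtain ⟨K, i1, i2, h1, h2⟩ := T_N0e T_N0d D hD
  exact (hN3 K D hD h1 h2).1

theorem qz2 : Qz 2 = 16 := by
  unfold Qz
  have h : (Finset.Icc 3 2).filter Nat.Prime = ∅ := by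
    ext x
    simp only [mem_filter, mem_Icc, notMem_empty, iff_false, not_and]
    omega
  rw [h, prod_empty, mul_one]

theorem piR2 (r : ℕ) : PiR 2 r = 1 - (chi r 2 : ℝ) / 2 := by
  unfold PiR
  have h : (Finset.Icc 2 2).filter Nat.Prime = {2} := by
    ext x
    simp only [mem_filter, mem_Icc, mem_singleton]
    constructor
    · rintro ⟨h1, _⟩
      omega
    · rintro rfl
      exact ⟨⟨le_rfl, le_rfl⟩, Nat.prime_two⟩
  rw [h, prod_singleton]
  norm_num

theorem chi_two_le (r : ℕ) : (chi r 2 : ℝ) ≤ 1 := by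
  have h : chi (r : ℤ) 2 ≤ 1 := by
    unfold chi
    have h1 : padicValNat 2 2 = 1 := by
      rw [padicValNat_self]
    rw [h1, pow_one, pow_one]
    have h2 : (2 : ℕ) / 2 = 1 := by norm_num
    rw [h2, jacobiSym.one_right, mul_one]
    unfold chi2
    split_ifs <;> norm_num
  exact_mod_cast h

theorem piR2_ge (r : ℕ) : 1 / 2 ≤ PiR 2 r := by
  rw [piR2]
  linarith [chi_two_le r]

theorem fundRes_of {D : ℕ} (h : IsFund D) : FundRes 2 (D % 16) := by
  refine ⟨by rw [qz2]; exact Nat.mod_lt _ (by norm_num), ?_, fun l hl => ?_⟩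
  · rcases h.2 with ⟨h1, _⟩ | ⟨m, hm, h1, _⟩
    · left
      omega
    · rcases h1 with h1 | h1
      · right
        left
        omega
      · right
        right
        omega
  · have h1 := mem_Icc.1 (mem_filter.1 hl).1
    omega

theorem lav : StmtLAV := by
  have h1 : ∀ r : ℕ, ∃ X0 : ℕ, ∀ X ≥ X0, ∑ D ∈ (FD 2 r X 1).filter fun _ => FundRes 2 r, Lone D ≤ X := by
    intro r
    by_cases hr : FundRes 2 r
    · obtain ⟨X0, hX0⟩ := lm 2 r le_rfl hr 1 one_pos le_rfl 1 one_pos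
      refine ⟨X0, fun X hX => ?_⟩
      have h2 : ((FD 2 r X 1).filter fun _ => FundRes 2 r) = FD 2 r X 1 := filter_true_of_mem fun _ _ => hr
      rw [h2]
      refine (hX0 X hX).trans ?_
      have h3 := piR2_ge r
      have h4 : (0 : ℝ) < PiR 2 r := by linarith
      rw [qz2, div_le_iff₀ h4]
      have h5 : (0 : ℝ) ≤ X := Nat.cast_nonneg X
      push_cast
      nlinarith
    · refine ⟨0, fun X _ => ?_⟩
      have h2 : ((FD 2 r X 1).filter fun _ => FundRes 2 r) = ∅ := filter_false_of_mem fun _ _ => hr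
      rw [h2, sum_empty]
      exact Nat.cast_nonneg X
  choose X0 hX0 using h1
  refine ⟨16, ∑ r ∈ range 16, X0 r, fun X hX => ?_⟩
  have hle : ∀ r ∈ range 16, X0 r ≤ X := fun r hr =>
    (single_le_sum (f := X0) (fun _ _ => Nat.zero_le _) hr).trans hX
  have h2 : ∑ D ∈ (Finset.Ioc X (2 * X)).filter IsFund, Lone D =
      ∑ r ∈ range 16, ∑ D ∈ ((Finset.Ioc X (2 * X)).filter IsFund).filter (fun D => D % 16 = r), Lone D :=
    (sum_fiberwise_of_maps_to (fun D _ => mem_range.2 (Nat.mod_lt _ (by norm_num))) _).symm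
  rw [h2]
  have h3 : ∀ r ∈ range 16, ∑ D ∈ ((Finset.Ioc X (2 * X)).filter IsFund).filter (fun D => D % 16 = r), Lone D ≤ X := by
    intro r hr
    refine le_trans (le_of_eq ?_) (hX0 r X (hle r hr))
    refine sum_congr ?_ fun _ _ => rfl
    ext D
    simp only [mem_filter, FD, DD, mem_Ioc, qz2]
    have hfl : ⌊(1 + (1 : ℝ)) * X⌋₊ = 2 * X := by
      have : (1 + (1 : ℝ)) * X = ((2 * X : ℕ) : ℝ) := by
        push_cast
        ring
      rw [this, Nat.floor_natCast]
    rw [hfl]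
    constructor
    · rintro ⟨⟨h4, h5⟩, h6⟩
      exact ⟨⟨⟨h4, h6⟩, h5⟩, h6 ▸ fundRes_of h5⟩
    · rintro ⟨⟨⟨h4, h6⟩, h5⟩, _⟩
      exact ⟨⟨h4, h5⟩, h6⟩
  refine (sum_le_sum h3).trans (le_of_eq ?_)
  rw [sum_const, card_range, nsmul_eq_mul]
  norm_num

end Pool.Agent.Q252.PL
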